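import Mathlib
import Pool.Agent.H71.TW.Pos

/-!
# The weak Manin conjecture for towers of Grassmannian bundles over number fields

Let `F` be a number field and let `X = X r → ... → X 1 → X 0 = Spec F` be a tower of Grassmannian
bundles `X c = Gr (k c, E c)` over `X (c - 1)`, where the vector bundle `E c` is obtained by applying
an arbitrary polynomial functor to the tautological subbundles `S j ⊆ E j`, `j < c`, of the previous
levels: `E c = V c (S 1, ..., S (c - 1))` for a polynomial representation `V c` of
`∏ j < c, GL (k j)`, for instance any direct sum of tensor products of Schur functors of the `S j`.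

By Schur-Weyl duality `V c` is a subspace of `(⊕ j, F ^ (k j)) ^ ⊗ (d c) ⊗ F ^ (m c)` which is
stable under the group. This describes the functors of one degree `d c`. The general case is reduced
to this case by the trivial levels: a level with `k c = 1`, `d c = 0`, `m c = 1` is a point with
`S c = O`, and tensoring with this `S c` makes all degrees equal. (So one uses one trivial level, or
none.)

Examples: flag varieties (all partial flag varieties of type `A`), generalised Bott towers, in
particular Hirzebruch surfaces, quiver flag varieties, projective bundles and Grassmannian bundles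
`Gr (k, V (S))` over Grassmannians; hypersurfaces of degree `d` in the linear subspaces of given
dimension of a projective space (`ℙ (Sym ^ d S)`), in particular the Hilbert schemes of two points of
`ℙ ^ n`, of the conics in `ℙ ^ n` and of the quadrics of given dimension; linear systems on such
hypersurfaces, pencils, nets and webs of quadrics on linear subspaces (`Gr (e, Sym ^ 2 S)`), matrices of
given rank, tensors of given multilinear rank, and so on. The varieties need not be Fano nor
spherical nor equivariant compactifications, and their effective cones are complicated in general.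

The classes `h c = c_1 (S c ^ *)`, for the levels `c` which are not trivial, are a basis of `Pic X`
(if `k c < dim V c` for these levels). The point `x = (x c)` of `X` with `x c ⊆ E c (x)` is given
by subspaces `x c` of `F ^ (Word c)`, where `Word c` is the standard basis of the tensor space which
contains `E c`. The Cox ring of `X` is the ring of invariants of `∏ SL (k c)` in the polynomial ring of
the vector space `⊕ c, Hom (F ^ (k c), V c)`: if `A c` is the matrix of a basis of `x c`, then the
columns of `A c` are the images of the elements `q c j` of `V c` under the map defined by the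
isomorphisms `A j` of `F ^ (k j)` with `x j`, `j < c`. The sections of `∑ θ c h c` are the
polynomials in these coordinates `q` which are multiplied by `∏ det (g c) ^ (θ c)` by the
base change `g`. So the set `effective` is the effective cone of `X`. (For a trivial level `c` the
class `h c` is zero, and the component `c` is arbitrary.) The canonical class is given by
`c_1 (T) = ∑ c, (dim V c) h c + (k c) c_1 (E c)` and `c_1 (E c) = - ∑ j, (w c j / k j) h j`, where
`w c j` is the total degree of `V c` in `S j`.

Theorem. There is a nonempty open subset `U` of `X` such that for all real classes `L` in the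
interior of the pseudo-effective cone (all big classes; they need not be nef) and all real numbers
`a` with `a L + K_X` pseudo-effective, in particular for `a = a (X, L)`, there is `K` with
`N (U, L, B) ≤ K B ^ a (log B) ^ (∑ k c)` for `B ≥ 2`. So the weak Manin conjecture holds for `X`.

Proof. By reduction theory over number fields the submodules of the integral points of the `x c` have
almost bases which are reduced at all infinite places and balanced, of sizes `2 ^ (l c j)`. The
coordinates `q` of the point with respect to these bases are integral up to a bounded denominator,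
and `|q ν|_v ≤ C * 2 ^ b ν` for all infinite places `v`, where the weight
`b ν` of the coordinate `ν = (c, j, letters)` is `l c j` minus the sum of the sizes of the
letters. The points of shape `l` are counted as follows: each of them gives
`2 ^ (deg F * ∑ c i j, max 0 (l c j - l c i))` integral points `q` in this box by unipotent base
changes, and the number of the integral points in the box is at most `C * 2 ^ (deg F * ∑ ν,
max 0 (b ν))`. If no `b ν` was negative this would give `C * 2 ^ (deg F * (- K_X · l))`. The coordinates
with very negative weight are zero, and the main point is the following: if the translates of the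
linear subspace of the `q` with these zeros are not dense, then they are avoided by the choice of `U`;
otherwise the Jacobian criterion and a nonzero term of a determinant give an injective map from the
forced zeros `ν` to the roots `(c, i, j)` such that the root moves a coordinate `ν'`, which is not
forced to be zero, to `ν`, and then `- b ν ≤ l c j - l c i`. So the loss is at most the
number of the unipotent base changes. Similarly a section of class `D` contains a monomial in the
coordinates which are not forced to be zero, which implies that `D · l` is bounded from below for the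
points of `U`, for all pseudo-effective `D` since finitely generated cones are closed. This bounds
`- K_X · l` by `a (L · l)`, and it bounds the number of the shapes.
-/

set_option autoImplicit false
set_option linter.all false

namespace Pool.Agent.Results.MP_18ea5f_nt.GrassmannianTowers

open MvPolynomial NumberField

variable {r : ℕ}

/-- The index set of the standard basis of `⊕ c, F ^ (k c)`. -/
abbrev Letter (k : Fin r → ℕ) := (c : Fin r) × Fin (k c)

/-- The space `(⊕ j, F ^ (k j)) ^ ⊗ (d c) ⊗ F ^ (m c)`, in coordinates. -/
abbrev Tensor (k d m : Fin r → ℕ) (F : Type) (c : Fin r) :=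
  (Fin (d c) → Letter k) × Fin (m c) → F

/-- The index set of the standard basis of the space which contains the fibres of `E c`: an
element of `Word d m c` consists of `d c` words of lower levels and an element of `Fin (m c)`. -/
inductive Word (d m : Fin r → ℕ) : Fin r → Type
  | mk (c : Fin r) (level : Fin (d c) → Fin r) (lower : ∀ s, level s < c)
      (letter : ∀ s, Word d m (level s)) (i : Fin (m c)) : Word d m c

/-- The map from `(⊕ j, F ^ (k j)) ^ ⊗ (d c) ⊗ F ^ (m c)` to `F ^ (Word c)` which is defined by the
linear maps `A j` from `F ^ (k j)` to `F ^ (Word j)`, `j < c`. -/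
def transform {k d m : Fin r → ℕ} {F : Type} [Field F]
    (A : ∀ c, Matrix (Word d m c) (Fin (k c)) F) : (c : Fin r) → Tensor k d m F c → Word d m c → F
  | c, q, .mk _ level _ letter i => ∑ z : Fin (d c) → Letter k,
      (∏ s, Matrix.blockDiagonal' A ⟨level s, letter s⟩ (z s)) * q (z, i)

/-- The action of `∏ c, GL (k c)` on `(⊕ j, F ^ (k j)) ^ ⊗ (d c) ⊗ F ^ (m c)`. -/
def act {k d m : Fin r → ℕ} {F : Type} [Field F] (g : ∀ c, Matrix (Fin (k c)) (Fin (k c)) F)
    {c : Fin r} (q : Tensor k d m F c) : Tensor k d m F c :=
  fun x => ∑ z : Fin (d c) → Letter k,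
    (∏ s, Matrix.blockDiagonal' g (x.1 s) (z s)) * q (z, x.2)

/-- The level `c` is trivial: `S c = E c = O`. -/
def IsTrivialLevel (k d m : Fin r → ℕ) (c : Fin r) : Prop := k c = 1 ∧ d c = 0 ∧ m c = 1

/-- The data of a tower: `V c` is a polynomial representation, homogeneous of degree `d c`, of the
product of the groups `GL (k j)` with `j < c`. -/
structure IsTower {F : Type} [Field F] (k d m : Fin r → ℕ)
    (V : ∀ c, Submodule F (Tensor k d m F c)) : Prop where
  pos : ∀ c, 1 ≤ k c
  rank : ∀ c, k c < Module.finrank F (V c) ∨ (IsTrivialLevel k d m c ∧ V c = ⊤)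
  lower : ∀ c, ∀ q ∈ V c, ∀ x, q x ≠ 0 → ∀ s, (x.1 s).1 < c
  stable : ∀ g : ∀ c, Matrix (Fin (k c)) (Fin (k c)) F, (∀ c, (g c).det ≠ 0) →
    ∀ c, ∀ q ∈ V c, act g q ∈ V c

/-- Families of subspaces of the spaces `F ^ (Word c)`. -/
abbrev Family (d m : Fin r → ℕ) (F : Type) [Field F] := ∀ c, Submodule F (Word d m c → F)

/-- `x` is a rational point of `X`: `x c` is a subspace of dimension `k c` of the space
`E c = V c (x 1, ..., x (c - 1))`, the image of `V c` under the map which is defined by the
isomorphisms `A j` of `F ^ (k j)` with `x j`. -/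
structure IsPoint {F : Type} [Field F] {k d m : Fin r → ℕ}
    (V : ∀ c, Submodule F (Tensor k d m F c)) (x : Family d m F) : Prop where
  finrank_eq : ∀ c, Module.finrank F (x c) = k c
  mem : ∃ A : ∀ c, Matrix (Word d m c) (Fin (k c)) F,
    (∀ c, LinearMap.range (A c).mulVecLin = x c) ∧
      ∀ c, ∀ t ∈ x c, ∃ q ∈ V c, transform A c q = t

/-- The open subset of `X` on which the Plücker coordinates with the rows `I c` are not zero, and
the polynomial `P` in the entries of the bases `A c` of the `x c` for which the rows `I c` are the
identity matrix does not vanish. -/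
def InOpen {F : Type} [Field F] {k d m : Fin r → ℕ} (V : ∀ c, Submodule F (Tensor k d m F c))
    (I : ∀ c, Fin (k c) → Word d m c)
    (P : MvPolynomial ((c : Fin r) × (Word d m c × Fin (k c))) F) (x : Family d m F) : Prop :=
  IsPoint V x ∧ ∃ A : ∀ c, Matrix (Word d m c) (Fin (k c)) F,
    (∀ c, LinearMap.range (A c).mulVecLin = x c) ∧ (∀ c, (A c).submatrix (I c) id = 1) ∧
      eval (fun i : (c : Fin r) × (Word d m c × Fin (k c)) => A i.1 i.2.1 i.2.2) P ≠ 0

/-- The height of a subspace `W`: the height of its Plücker coordinates. -/
noncomputable def grHeight {F : Type} [Field F] [NumberField F] {ι : Type} [Finite ι]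
    (W : Submodule F (ι → F)) : ℝ :=
  Height.mulHeight fun S : Fin (Module.finrank F W) → ι =>
    (Matrix.of fun i j => ((Module.finBasis F W j : W) : ι → F) (S i)).det

/-- The coordinates `q c j` of the columns `j` of the bases of the `x c`. -/
abbrev Coord (k d m : Fin r → ℕ) := (c : Fin r) × (Fin (k c) × ((Fin (d c) → Letter k) × Fin (m c)))

/-- The tensor `q c j`. -/
def column {k d m : Fin r → ℕ} {F : Type} (q : Coord k d m → F) (c : Fin r) (j : Fin (k c)) :
    Tensor k d m F c := fun z => q ⟨c, (j, z)⟩

/-- `f` is a nonzero section of the class `∑ θ c h c`: a polynomial in the coordinates `q` with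
`q c j` in `V c`, which is multiplied by `∏ det (g c) ^ (θ c)` if the bases `A c` are replaced by
the bases `A c * g c`. -/
structure IsSection {F : Type} [Field F] {k d m : Fin r → ℕ}
    (V : ∀ c, Submodule F (Tensor k d m F c)) (θ : Fin r → ℤ) (f : MvPolynomial (Coord k d m) F) :
    Prop where
  nonzero : ∃ q : Coord k d m → F, (∀ c j, column q c j ∈ V c) ∧ eval q f ≠ 0
  semiinvariant : ∀ g : ∀ c, Matrix (Fin (k c)) (Fin (k c)) F, (∀ c, (g c).det ≠ 0) →
    (∀ c, IsTrivialLevel k d m c → g c = 1) → ∀ q q' : Coord k d m → F,
      (∀ c j, column q c j ∈ V c) → (∀ c j, column q' c j ∈ V c) →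
      (∀ c j, act g (column q' c j) = ∑ j', g c j' j • column q c j') →
      eval q' f = (∏ c, (g c).det ^ θ c) * eval q f

/-- The effective cone of `X`, in the basis `h c`: the nonnegative combinations of the classes which
have nonzero sections. -/
def effective {F : Type} [Field F] {k d m : Fin r → ℕ}
    (V : ∀ c, Submodule F (Tensor k d m F c)) : Set (Fin r → ℝ) :=
  {D | ∃ (n : ℕ) (t : Fin n → ℝ) (θ : Fin n → Fin r → ℤ) (f : Fin n → MvPolynomial (Coord k d m) F),
    (∀ i, 0 ≤ t i) ∧ (∀ i, IsSection V (θ i) (f i)) ∧ ∀ c, D c = ∑ i, t i * θ i c}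

/-- The part of degree `e` of `V c` with respect to the factors `F ^ (k j)`. -/
def degreePart {F : Type} [Field F] {k d m : Fin r → ℕ} (V : ∀ c, Submodule F (Tensor k d m F c))
    (c j : Fin r) (e : ℕ) : Submodule F (Tensor k d m F c) where
  carrier := {q | q ∈ V c ∧ ∀ x, q x ≠ 0 → (Finset.univ.filter fun s => (x.1 s).1 = j).card = e}
  add_mem' := fun {a b} ha hb => ⟨(V c).add_mem ha.1 hb.1, fun x hx => by
    by_cases h : a x = 0
    · refine hb.2 x fun hb0 => hx ?_
      rw [Pi.add_apply, h, hb0, add_zero]
    · exact ha.2 x h⟩
  zero_mem' := ⟨(V c).zero_mem, fun x hx => absurd rfl hx⟩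
  smul_mem' := fun t a ha => ⟨(V c).smul_mem t ha.1, fun x hx => ha.2 x fun h0 => hx (by
    rw [Pi.smul_apply, h0, smul_zero])⟩

/-- The canonical class of `X`. -/
noncomputable def canonical {F : Type} [Field F] {k d m : Fin r → ℕ}
    (V : ∀ c, Submodule F (Tensor k d m F c)) : Fin r → ℝ := fun c =>
  -((Module.finrank F (V c) : ℝ) - ∑ b, (k b : ℝ) *
    (∑ e ∈ Finset.range (d b + 1), e * Module.finrank F (degreePart V b c e) : ℕ) / k c)

instance wordFinite (d m : Fin r → ℕ) (c : Fin r) : Finite (Word d m c) := by
  have key : ∀ (n : ℕ) (c : Fin r), (c : ℕ) = n → Finite (Word d m c) := by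
    intro n
    induction n using Nat.strong_induction_on with
    | _ n ih =>
      intro c hc
      have h1 : ∀ (p : {level : Fin (d c) → Fin r // ∀ s, level s < c}) (s : Fin (d c)),
          Finite (Word d m (p.1 s)) := fun p s => ih (p.1 s) (by rw [← hc]; exact p.2 s) _ rfl
      have h2 : Finite ((Σ p : {level : Fin (d c) → Fin r // ∀ s, level s < c},
          ∀ s, Word d m (p.1 s)) × Fin (m c)) := by
        have : ∀ p : {level : Fin (d c) → Fin r // ∀ s, level s < c},
          Finite (∀ s, Word d m (p.1 s)) := fun p => inferInstance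
        infer_instance
      let f : ∀ c, Word d m c → (Σ p : {level : Fin (d c) → Fin r // ∀ s, level s < c},
          ∀ s, Word d m (p.1 s)) × Fin (m c) := fun c w => match w with
        | .mk c level lower letter i => (⟨⟨level, lower⟩, letter⟩, i)
      refine Finite.of_injective (f c) ?_
      intro w w' h
      cases w with
      | mk _ level lower letter i =>
        cases w' with
        | mk _ level' lower' letter' i' =>
          simp only [f, Prod.mk.injEq, Sigma.mk.injEq, Subtype.mk.injEq] at h
          obtain ⟨⟨rfl, h3⟩, rfl⟩ := h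
          have h4 := eq_of_heq h3
          subst h4
          rfl
  exact key _ c rfl

/-- The height for the class `∑ c, L c h c`. -/
noncomputable def height {F : Type} [Field F] [NumberField F] {d m : Fin r → ℕ} (L : Fin r → ℝ)
    (x : Family d m F) : ℝ := ∏ c, grHeight (x c) ^ L c

section Bridge

variable {F : Type} [Field F] {k d m : Fin r → ℕ}

/-- The letters of a word. -/
def letters (d m : Fin r → ℕ) : (c : Fin r) → Word d m c →
    (Fin (d c) → (j : Fin r) × Word d m j) × Fin (m c)
  | c, .mk _ level _ letter i => (fun s => ⟨level s, letter s⟩, i)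

/-- The ambient data. -/
def amb (d m : Fin r → ℕ) : Pool.Agent.H71.TW.Amb (Word d m) d m where
  e := letters d m
  lower := fun c x s => by
    cases x with
    | mk _ level lower letter i => exact lower s
  surj := fun c w hw => ⟨.mk c (fun s => (w.1 s).1) hw (fun s => (w.1 s).2) w.2, rfl⟩

theorem transform_eq (A : ∀ c, Matrix (Word d m c) (Fin (k c)) F) (c : Fin r)
    (q : Tensor k d m F c) (x : Word d m c) :
    transform A c q x = Pool.Agent.H71.MB.act (Pool.Agent.H71.TW.bd A) q ((amb d m).e c x) := by
  cases x with
  | mk _ level lower letter i => rfl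

theorem isPt_iff (V : ∀ c, Submodule F (Tensor k d m F c)) (x : Family d m F) :
    Pool.Agent.H71.TW.IsPt (amb d m) V x ↔ IsPoint V x := by
  constructor
  · rintro ⟨h1, B, q, hq, hr, hB⟩
    refine ⟨h1, B, hB, fun c t ht => ?_⟩
    rw [← hB c] at ht
    obtain ⟨y, rfl⟩ := ht
    refine ⟨fun w => ∑ j, y j * q ⟨c, (j, w)⟩, ?_, ?_⟩
    · have h2 : (fun w => ∑ j, y j * q ⟨c, (j, w)⟩) =
          ∑ j, y j • (fun w : (Fin (d c) → Letter k) × Fin (m c) => q ⟨c, (j, w)⟩) := by
        funext w
        simp
      rw [h2]
      exact (V c).sum_mem fun j _ => (V c).smul_mem _ (hq c j)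
    · funext w
      rw [transform_eq, Matrix.mulVecLin_apply, Matrix.mulVec, dotProduct]
      have h3 := Pool.Agent.H71.TW.act_sum Finset.univ (Pool.Agent.H71.TW.bd B) y
        (fun j => fun z : (Fin (d c) → Letter k) × Fin (m c) => q ⟨c, (j, z)⟩) ((amb d m).e c w)
      refine h3.trans (Finset.sum_congr rfl fun j _ => ?_)
      rw [← hr c w j, mul_comm]
  · rintro ⟨h1, A, hA, hmem⟩
    refine ⟨h1, A, ?_⟩
    have h2 : ∀ c j, ∃ q ∈ V c, transform A c q = fun w => A c w j := by
      intro c j
      refine hmem c _ ?_
      rw [← hA c]
      refine ⟨Pi.single j 1, ?_⟩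
      funext w
      rw [Matrix.mulVecLin_apply, Matrix.mulVec_single_one]
      rfl
    choose q hq hqA using h2
    refine ⟨fun i => q i.1 i.2.1 i.2.2, fun c j => hq c j, fun c w j => ?_, hA⟩
    have h3 := congrFun (hqA c j) w
    rw [transform_eq] at h3
    exact h3.symm

theorem stab {V : ∀ c, Submodule F (Tensor k d m F c)} (hV : IsTower k d m V) :
    Pool.Agent.H71.TW.Stab V := fun g hg c q hq => hV.stable g hg c q hq

theorem isSec_of {V : ∀ c, Submodule F (Tensor k d m F c)} (hV : IsTower k d m V) (θ : Fin r → ℤ)
    (f : MvPolynomial (Coord k d m) F) (h : IsSection V θ f) :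
    Pool.Agent.H71.TW.IsSec (IsTrivialLevel k d m) V θ f := by
  obtain ⟨⟨q, hq, hqf⟩, hs⟩ := h
  refine ⟨⟨q, hq, hqf⟩, ?_⟩
  intro g h hgh hZ q hq
  have hdet : ∀ c, (g c).det * (h c).det = 1 := by
    intro c
    rw [← Matrix.det_mul, hgh, Matrix.det_one]
  refine hs g (fun c h0 => ?_) hZ q (Pool.Agent.H71.TW.chg g h q) hq ?_ ?_
  · have := hdet c
    rw [h0, zero_mul] at this
    exact zero_ne_one this
  · exact Pool.Agent.H71.TW.chg_mem (stab hV) g h (fun c h0 => by
      have := hdet c
      rw [h0, mul_zero] at this
      exact zero_ne_one this) q hq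
  · intro c j
    have h1 : column (Pool.Agent.H71.TW.chg g h q) c j = Pool.Agent.H71.MB.act
        (Pool.Agent.H71.TW.bd h) (fun w => ∑ j', g c j' j * q ⟨c, (j', w)⟩) := rfl
    have h2 : ∀ T : Tensor k d m F c, act g T =
        Pool.Agent.H71.MB.act (Pool.Agent.H71.TW.bd g) T := fun T => rfl
    rw [h2, h1, Pool.Agent.H71.MB.act_act, Pool.Agent.H71.TW.bd_mul]
    have h3 : (fun c => g c * h c) = fun c => (1 : Matrix (Fin (k c)) (Fin (k c)) F) := funext hgh
    have h4 : Pool.Agent.H71.TW.bd (fun c => (1 : Matrix (Fin (k c)) (Fin (k c)) F)) = 1 :=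
      Matrix.blockDiagonal'_one
    rw [h3, h4, Pool.Agent.H71.MB.act_one]
    funext w
    rw [Finset.sum_apply]
    rfl

theorem effective_sub {V : ∀ c, Submodule F (Tensor k d m F c)} (hV : IsTower k d m V) :
    effective V ⊆ Pool.Agent.H71.TW.Eff (IsTrivialLevel k d m) V := by
  rintro D ⟨n, t, θ, f, ht, hf, hD⟩
  exact ⟨n, t, θ, f, ht, fun i => isSec_of hV _ _ (hf i), hD⟩

theorem canonical_eq (V : ∀ c, Submodule F (Tensor k d m F c)) (c : Fin r) :
    canonical V c = - Pool.Agent.H71.TW.kap V c := by
  rw [canonical, Pool.Agent.H71.TW.kap]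
  rfl

theorem inOpen_iff (V : ∀ c, Submodule F (Tensor k d m F c)) (I : ∀ c, Fin (k c) → Word d m c)
    (P : MvPolynomial ((c : Fin r) × (Word d m c × Fin (k c))) F) (x : Family d m F) :
    Pool.Agent.H71.TW.InU (amb d m) V I P x ↔ InOpen V I P x := by
  constructor
  · rintro ⟨h1, h2⟩
    exact ⟨(isPt_iff V x).1 h1, h2⟩
  · rintro ⟨h1, h2⟩
    exact ⟨(isPt_iff V x).2 h1, h2⟩

end Bridge

/-- The weak Manin conjecture for the towers of Grassmannian bundles, over number fields. -/
theorem result {F : Type} [Field F] [NumberField F] (k d m : Fin r → ℕ)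
    (V : ∀ c, Submodule F (Tensor k d m F c)) (hV : IsTower k d m V)
    (hpos : ∃ c, k c < Module.finrank F (V c)) :
    ∃ (I : ∀ c, Fin (k c) → Word d m c)
      (P : MvPolynomial ((c : Fin r) × (Word d m c × Fin (k c))) F),
      (∃ x : Family d m F, InOpen V I P x) ∧
      ∀ (L : Fin r → ℝ) (a : ℝ), L ∈ interior (effective V) →
        a • L + canonical V ∈ closure (effective V) →
        ∃ K : ℝ, ∀ B : ℝ, 2 ≤ B →
          {x : Family d m F | InOpen V I P x ∧ height L x ≤ B}.Finite ∧
          ({x : Family d m F | InOpen V I P x ∧ height L x ≤ B}.ncard : ℝ) ≤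
            K * B ^ a * (Real.log B) ^ (∑ c, k c) := by
  classical
  have hft : ∀ c, Fintype (Word d m c) := fun c => Fintype.ofFinite _
  have hcard : ∀ c, IsTrivialLevel k d m c → Module.finrank F (V c) ≤ k c := by
    intro c hc
    obtain ⟨h1, h2, h3⟩ := hc
    have h4 := Submodule.finrank_le (V c)
    rw [Module.finrank_fintype_fun_eq_card, Fintype.card_prod, Fintype.card_fun, Fintype.card_fin,
      Fintype.card_fin] at h4
    have h5 : Fintype.card (Letter k) ^ d c * m c = 1 := by
      rw [h2, h3, pow_zero, Nat.one_mul]
    omega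
  have hrank : ∀ c, k c ≤ Module.finrank F (V c) := by
    intro c
    rcases hV.rank c with h | ⟨⟨h1, h2, h3⟩, h⟩
    · exact h.le
    · rw [h, finrank_top, Module.finrank_fintype_fun_eq_card, Fintype.card_prod, Fintype.card_fun,
        Fintype.card_fin, Fintype.card_fin, h1, h2, h3, pow_zero, Nat.one_mul]
  have hZ : ∀ c, IsTrivialLevel k d m c → k c = 1 ∧ d c = 0 ∧ m c = 1 := fun c h => h
  obtain ⟨I, P, ⟨x, hx⟩, hmain⟩ := Pool.Agent.H71.TW.main (amb d m) V (stab hV) hV.lower hV.pos
    hrank (IsTrivialLevel k d m) hZ
  have hpos0 : ∀ c, k c < Module.finrank F (V c) → 0 < Module.finrank F (V c) :=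
    fun c h => lt_of_le_of_lt (Nat.zero_le _) h
  refine ⟨I, P, ⟨x, (inOpen_iff V I P x).1 hx⟩, fun L a hL ha => ?_⟩
  have hL' : L ∈ interior (Pool.Agent.H71.TW.Eff (IsTrivialLevel k d m) V) :=
    interior_mono (effective_sub hV) hL
  have ha' : (fun c => a * L c - Pool.Agent.H71.TW.kap V c) ∈
      closure (Pool.Agent.H71.TW.Eff (IsTrivialLevel k d m) V) := by
    have h1 : a • L + canonical V = fun c => a * L c - Pool.Agent.H71.TW.kap V c := by
      funext c
      rw [Pi.add_apply, Pi.smul_apply, smul_eq_mul, canonical_eq]
      ring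
    rw [← h1]
    exact closure_mono (effective_sub hV) ha
  obtain ⟨c0, hc0⟩ := hpos
  have hc0Z : ¬ IsTrivialLevel k d m c0 := fun h => absurd hc0 (not_lt.2 (hcard c0 h))
  have ha0 : 0 < a := Pool.Agent.H71.TW.pos_exponent V (stab hV) hV.lower hV.pos
    (IsTrivialLevel k d m) hZ c0 hc0Z (hpos0 c0 hc0) L a (subset_closure (interior_subset hL')) ha'
  obtain ⟨K, hK⟩ := hmain L a ha0.le hL' ha'
  refine ⟨K, fun B hB => ?_⟩
  have hset : {x : Family d m F | InOpen V I P x ∧ height L x ≤ B} =
      {x : Family d m F | Pool.Agent.H71.TW.InU (amb d m) V I P x ∧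
        ∏ c, Pool.Agent.H71.TW.grH (x c) ^ L c ≤ B} := by
    ext x
    simp only [Set.mem_setOf_eq, inOpen_iff]
    rfl
  rw [hset]
  exact hK B hB

end Pool.Agent.Results.MP_18ea5f_nt.GrassmannianTowers
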